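import Mathlib
import Pool.Agent.H49R3.SC.Field4

/-!
# Hilbertian algebraic extensions with steps of prescribed degrees over which all finite split
embedding problems are solvable

`K` is a countable Hilbertian field of characteristic `0`, `D` an infinite set of positive integers
(for example the powers of a prime) and `L₀` a finite Galois extension of `K`. There is a tower
`K = E₀ ≤ E₁ ≤ …` of finite extensions of `K` with all relative degrees `[E_{k+1} : E_k]` in `D`
whose union `E` is Hilbertian, satisfies `E ∩ L₀ = K`, and over which every finite split embedding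
problem has a proper solution.
-/

set_option autoImplicit false

open Pool.Agent.H49R3.SC

namespace Pool.Agent.Results.MP_e9d732_al.TowerHilb

/-- Hilbertian field, as in the frozen statement S03429. -/
def Hilbertian (K : Type) [Field K] : Prop :=
  ∀ (f : Polynomial (Polynomial K)), f.Monic → Irreducible f →
    (f.map (algebraMap (Polynomial K) (FractionRing (Polynomial K)))).Separable →
    ∀ g : Polynomial K, g ≠ 0 →
      ∃ a : K, g.eval a ≠ 0 ∧ Irreducible (f.map (Polynomial.evalRingHom a))

/-- Every finite split embedding problem over `E` has a proper solution, as in the frozen statement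
S03429. -/
def SplitSolvable (E : Type) [Field E] : Prop :=
  ∀ (F1 : Type) [Field F1] [Algebra E F1] [FiniteDimensional E F1] [IsGalois E F1]
    (G : Type) [Group G] [Finite G] (α : G →* (F1 ≃ₐ[E] F1)),
    Function.Surjective α →
    (∃ s : (F1 ≃ₐ[E] F1) →* G, ∀ x, α (s x) = x) →
    ∃ (F : Type) (_ : Field F) (_ : Algebra E F) (_ : Algebra F1 F)
      (_ : IsScalarTower E F1 F),
      FiniteDimensional E F ∧ IsGalois E F ∧
      ∃ γ : (F ≃ₐ[E] F) ≃* G, ∀ σ : F ≃ₐ[E] F, α (γ σ) = σ.restrictNormal F1

end Pool.Agent.Results.MP_e9d732_al.TowerHilb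

open Pool.Agent.Results.MP_e9d732_al.TowerHilb in
theorem Pool.Agent.Results.MP_e9d732_al.TowerHilb.result :
    ∀ (K : Type) [Field K] [CharZero K] [Countable K], Hilbertian K →
      ∀ D : Set ℕ, D.Infinite →
      ∀ L₀ : IntermediateField K (AlgebraicClosure K), FiniteDimensional K L₀ → IsGalois K L₀ →
        ∃ E : ℕ → IntermediateField K (AlgebraicClosure K),
          E 0 = ⊥ ∧ (∀ k, E k ≤ E (k + 1)) ∧ (∀ k, FiniteDimensional K (E k)) ∧
          (∀ k, IntermediateField.relfinrank (E k) (E (k + 1)) ∈ D) ∧
          (⨆ k, E k) ⊓ L₀ = ⊥ ∧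
          Hilbertian (⨆ k, E k : IntermediateField K (AlgebraicClosure K)) ∧
          SplitSolvable (⨆ k, E k : IntermediateField K (AlgebraicClosure K)) := by
  intro K _ hK0 _ hK D hD L₀ hL₀ hL₀g
  have hac : IsAlgClosure K (AlgebraicClosure K) := inferInstance
  have hcount : Countable (AlgebraicClosure K) := by
    have h1 := Algebra.IsAlgebraic.cardinalMk_le_max K (AlgebraicClosure K)
    rw [← Cardinal.mk_le_aleph0_iff]
    refine h1.trans ?_
    exact max_le (Cardinal.mk_le_aleph0_iff.2 inferInstance) le_rfl
  obtain ⟨E, h1, h2, h3, h4, h5, h6, h7⟩ := field_tower (K := K) (Ω := AlgebraicClosure K)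
    hK0 hK D hD L₀ hL₀ hL₀g
  refine ⟨E, h1, h2, h3, h4, h5, h6, ?_⟩
  generalize (⨆ k, E k) = T at h7 ⊢
  have halg : Algebra.IsAlgebraic T (AlgebraicClosure K) :=
    Algebra.IsAlgebraic.tower_top (K := K) T
  have hacT : IsAlgClosure T (AlgebraicClosure K) := ⟨IsAlgClosure.isAlgClosed K, halg⟩
  intro F1 _ _ _ _ G _ _ α _ hs
  obtain ⟨s, hs⟩ := hs
  exact ep_field (T := T) (Ω := AlgebraicClosure K) inferInstance h7 F1 G α s hs
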